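import Pool.Agent.Helper39.CR.GoalsT

/-!
Project CAR, stage 3: packet TADD.
-/

open TopologicalSpace

namespace Pool.Agent.Helper4.CR

open Pool.Agent.Helper34.CAR Pool.Agent.Helper39.Uct Pool.Agent.Helper39.CR

noncomputable section

variable {A B : Type} [NonUnitalCStarAlgebra A] [NonUnitalCStarAlgebra B]

/-- The homomorphism `(a, b) ↦ f a + g b`. -/
def kk (f g : A →⋆ₙₐ[ℂ] B) (h : ∀ a b, f a * g b = 0) : A × A →⋆ₙₐ[ℂ] B where
  toFun p := f p.1 + g p.2
  map_smul' c p := by simp [smul_add]
  map_zero' := by simp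
  map_add' p q := by
    simp only [Prod.fst_add, Prod.snd_add, map_add]
    abel
  map_mul' p q := by
    have h2 : g p.2 * f q.1 = 0 := by
      have h3 := congrArg star (h (star q.1) (star p.2))
      rwa [star_mul, map_star, map_star, star_star, star_star, star_zero] at h3
    simp only [Prod.fst_mul, Prod.snd_mul, map_mul, mul_add, add_mul, h p.1 q.2, h2]
    abel
  map_star' p := by simp [star_add, map_star]

theorem tadd_two (tz : S_TZ) (T : Theory) (i : ZMod 2) [SeparableSpace A] [SeparableSpace B]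
    (f g h : A →⋆ₙₐ[ℂ] B) (hfg : ∀ a b, f a * g b = 0) (hh : ∀ a, h a = f a + g a)
    (x : T.F i B) : T.map i h x = T.map i f x + T.map i g x := by
  obtain ⟨tz1, -, -⟩ := tz T
  let inl : A →⋆ₙₐ[ℂ] A × A := NonUnitalStarAlgHom.inl ℂ A A
  let inr : A →⋆ₙₐ[ℂ] A × A := NonUnitalStarAlgHom.inr ℂ A A
  let fst : A × A →⋆ₙₐ[ℂ] A := NonUnitalStarAlgHom.fst ℂ A A
  let snd : A × A →⋆ₙₐ[ℂ] A := NonUnitalStarAlgHom.snd ℂ A A
  let diag : A →⋆ₙₐ[ℂ] A × A := (NonUnitalStarAlgHom.id ℂ A).prod (NonUnitalStarAlgHom.id ℂ A)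
  have e1 : fst.comp inl = NonUnitalStarAlgHom.id ℂ A := by ext a; rfl
  have e2 : snd.comp inr = NonUnitalStarAlgHom.id ℂ A := by ext a; rfl
  have e3 : fst.comp diag = NonUnitalStarAlgHom.id ℂ A := by ext a; rfl
  have e4 : snd.comp diag = NonUnitalStarAlgHom.id ℂ A := by ext a; rfl
  have z1 : ∀ y, T.map i (snd.comp inl) y = 0 := tz1 i A A _ (fun a => rfl)
  have z2 : ∀ y, T.map i (fst.comp inr) y = 0 := tz1 i A A _ (fun a => rfl)
  -- the maps
  have m1 : ∀ y, T.map i inl (T.map i fst y) = y := by
    intro y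
    rw [← T.map_comp, e1, T.map_id]
  have m2 : ∀ y, T.map i inr (T.map i snd y) = y := by
    intro y
    rw [← T.map_comp, e2, T.map_id]
  have m3 : ∀ y, T.map i inl (T.map i snd y) = 0 := by
    intro y
    rw [← T.map_comp, z1]
  have m4 : ∀ y, T.map i inr (T.map i fst y) = 0 := by
    intro y
    rw [← T.map_comp, z2]
  have claim : ∀ z : T.F i (A × A), z = T.map i fst (T.map i inl z) + T.map i snd (T.map i inr z) := by
    intro z
    obtain ⟨d, hd1, -, -⟩ := T.exact i A (A × A) A inl snd
      (fun a b hab => congrArg Prod.fst hab)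
      (fun b => ⟨(0, b), rfl⟩)
      (by
        rintro ⟨a, b⟩
        constructor
        · intro hb
          exact ⟨a, Prod.ext rfl hb.symm⟩
        · rintro ⟨c, hc⟩
          exact (congrArg Prod.snd hc).symm)
    have h1 : T.map i inl (z - (T.map i fst (T.map i inl z) + T.map i snd (T.map i inr z))) = 0 := by
      rw [map_sub, map_add, m1, m3, add_zero, sub_self]
    obtain ⟨y, hy⟩ := (hd1 _).1 h1
    have h2 : T.map i inr (z - (T.map i fst (T.map i inl z) + T.map i snd (T.map i inr z))) = 0 := by
      rw [map_sub, map_add, m2, m4, zero_add, sub_self]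
    rw [← hy, m2] at h2
    rw [h2, map_zero] at hy
    exact sub_eq_zero.1 hy.symm
  have k1 : (kk f g hfg).comp inl = f := by
    ext a
    change f a + g 0 = f a
    rw [map_zero, add_zero]
  have k2 : (kk f g hfg).comp inr = g := by
    ext a
    change f 0 + g a = g a
    rw [map_zero, zero_add]
  have k3 : (kk f g hfg).comp diag = h := by
    ext a
    exact (hh a).symm
  have k4 : ∀ y, T.map i diag (T.map i fst y) = y := by
    intro y
    rw [← T.map_comp, e3, T.map_id]
  have k5 : ∀ y, T.map i diag (T.map i snd y) = y := by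
    intro y
    rw [← T.map_comp, e4, T.map_id]
  have k6 : T.map i inl (T.map i (kk f g hfg) x) = T.map i f x := by rw [← T.map_comp, k1]
  have k7 : T.map i inr (T.map i (kk f g hfg) x) = T.map i g x := by rw [← T.map_comp, k2]
  have k8 := claim (T.map i (kk f g hfg) x)
  rw [k6, k7] at k8
  rw [← k3, T.map_comp, k8, map_add, k4, k5]

/-- The homomorphism `a ↦ ∑ j ∈ s, f j a`. -/
def ss {J : Type} (f : J → (A →⋆ₙₐ[ℂ] B)) (hf : ∀ j k, j ≠ k → ∀ a b, f j a * f k b = 0)
    (s : Finset J) : A →⋆ₙₐ[ℂ] B where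
  toFun a := ∑ j ∈ s, f j a
  map_smul' c a := by simp [Finset.smul_sum]
  map_zero' := by simp
  map_add' a b := by simp [Finset.sum_add_distrib]
  map_mul' a b := by
    rw [Finset.sum_mul]
    refine Finset.sum_congr rfl fun j hj => ?_
    rw [Finset.mul_sum, Finset.sum_eq_single j, map_mul]
    · intro k _ hk
      exact hf j k (Ne.symm hk) a b
    · intro h
      exact absurd hj h
  map_star' a := by simp [star_sum, map_star]

theorem tadd (tz : S_TZ) : S_TADD := by
  intro T i A B _ _ _ _ J _ f h hf hh x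
  classical
  have key : ∀ s : Finset J, T.map i (ss f hf s) x = ∑ j ∈ s, T.map i (f j) x := by
    intro s
    induction s using Finset.induction_on with
    | empty =>
      rw [Finset.sum_empty]
      refine (tz T).1 i A B _ (fun a => ?_) x
      change ∑ j ∈ (∅ : Finset J), f j a = 0
      exact Finset.sum_empty
    | insert j s hj ih =>
      rw [Finset.sum_insert hj, ← ih]
      refine tadd_two tz T i (f j) (ss f hf s) _ ?_ ?_ x
      · intro a b
        change f j a * ∑ k ∈ s, f k b = 0
        rw [Finset.mul_sum]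
        refine Finset.sum_eq_zero fun k hk => hf j k ?_ a b
        rintro rfl
        exact hj hk
      · intro a
        exact Finset.sum_insert hj
  have h1 : ss f hf Finset.univ = h := by
    ext a
    exact (hh a).symm
  rw [← h1]
  exact key Finset.univ

end

end Pool.Agent.Helper4.CR
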